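import Pool.Agent.Lib.MP_7b5b6d_co.Defs
import Pool.Agent.Lib.MP_7b5b6d_co.Domatic

/-!
Zelinka's inequality: the edge-domatic number of a finite simple graph is at least its minimum
degree.
-/

namespace Pool.Agent.Results.MP_7b5b6d_co.ZelinkaInequality

open Pool.Agent.Lib.MP_7b5b6d_co SimpleGraph Classical

universe u

/-- Every finite simple graph `G` satisfies `dom(L(G)) ≥ δ(G)`. -/
theorem result : ∀ (V : Type u) [Fintype V] (G : SimpleGraph V),
    G.minDegree ≤ domaticNumber G.lineGraph :=
  fun _ _ G => zelinka G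

end Pool.Agent.Results.MP_7b5b6d_co.ZelinkaInequality
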